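import Pool.Agent.KDS.StmtsA

/-!
# Squad KDS, row RNA (helper67): calculus of `RN`
-/

set_option autoImplicit false

namespace Pool.Agent.KDS.H67

open Polynomial NumberField H58Q Pool.Agent.SZT Pool.Agent.KDT Pool.Agent.KDS

theorem mon_add {K : Type} [Field K] (e e' : Fin 4 → ℕ) (u : Fin 4 → K) :
    mon (e + e') u = mon e u * mon e' u := by
  unfold mon
  rw [← Finset.prod_mul_distrib]
  exact Finset.prod_congr rfl fun i _ => pow_add _ _ _

theorem jj_add (e e' : Fin 4 → ℕ) : jj (e + e') = jj e + jj e' := by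
  unfold jj
  simp only [Pi.add_apply]
  ring

theorem ex_sum {κ : ℕ} (e : Ex κ) : e.1 0 + e.1 1 + e.1 2 + e.1 3 = κ :=
  (Finset.mem_filter.1 e.2).2.1

theorem rna (hR : RedStatement) : RnaStatement := by
  intro E _ w g δ Y hN hY
  have hδ := hN.pos
  have hna : ∀ x y : E, w (x + y) ≤ max (w x) (w y) := hN.na
  have p1 : ∀ (κ : ℕ) (ν : ℝ → ℝ) (F F' : (Fin 4 → E) → E), RN w δ Y κ ν F →
      RN w δ Y κ ν F' → RN w δ Y κ ν (fun u => F u + F' u) := by
    rintro κ ν F F' ⟨a, ha, ha'⟩ ⟨b, hb, hb'⟩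
    refine ⟨fun e => a e + b e, fun u hu => ?_, fun e σ h0 h1 => ?_⟩
    · show F u + F' u = _
      rw [ha u hu, hb u hu, ← Finset.sum_add_distrib]
      refine Finset.sum_congr rfl fun e _ => ?_
      ring
    · exact (hna _ _).trans (max_le (ha' e σ h0 h1) (hb' e σ h0 h1))
  have p2 : ∀ (κ : ℕ) (ν γ : ℝ → ℝ) (c : E) (F : (Fin 4 → E) → E),
      (∀ σ, 0 ≤ σ → σ ≤ 1 / 2 → w c ≤ Real.exp (-δ * γ σ)) → RN w δ Y κ ν F →
      RN w δ Y κ (fun σ => γ σ + ν σ) (fun u => c * F u) := by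
    rintro κ ν γ c F hc ⟨a, ha, ha'⟩
    refine ⟨fun e => c * a e, fun u hu => ?_, fun e σ h0 h1 => ?_⟩
    · show c * F u = _
      rw [ha u hu, Finset.mul_sum]
      refine Finset.sum_congr rfl fun e _ => ?_
      ring
    · show w (c * a e) ≤ Real.exp (-δ * (γ σ + ν σ - ((κ : ℝ) - jj e.1) * σ))
      rw [map_mul]
      have h2 := mul_le_mul (hc σ h0 h1) (ha' e σ h0 h1) (w.nonneg _) (Real.exp_pos _).le
      rw [← Real.exp_add] at h2
      refine h2.trans (le_of_eq ?_)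
      congr 1
      ring
  have p4 : ∀ (κ : ℕ) (ν ν' : ℝ → ℝ) (F : (Fin 4 → E) → E),
      (∀ σ, 0 ≤ σ → σ ≤ 1 / 2 → ν' σ ≤ ν σ) →
      RN w δ Y κ ν F → RN w δ Y κ ν' F := by
    rintro κ ν ν' F hν ⟨a, ha, ha'⟩
    refine ⟨a, ha, fun e σ h0 h1 => (ha' e σ h0 h1).trans (Real.exp_le_exp.2 ?_)⟩
    have h2 := mul_le_mul_of_nonneg_left (hν σ h0 h1) hδ.le
    linarith only [h2]
  have p5 : ∀ (κ : ℕ) (ν : ℝ → ℝ), RN w δ Y κ ν (fun _ => 0) := by
    intro κ ν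
    refine ⟨fun _ => 0, fun u _ => ?_, fun e σ _ _ => ?_⟩
    · simp
    · rw [map_zero]
      exact (Real.exp_pos _).le
  have p6 : ∀ (κ : ℕ) (e : Fin 4 → ℕ), e 0 + e 1 + e 2 + e 3 = κ →
      RN w δ Y κ (fun σ => ((κ : ℝ) - jj e) * σ) (mon e) := by
    intro κ e he
    obtain ⟨a, ha, ha'⟩ := hR E w g δ hN κ e he
    exact ⟨a, fun u hu => ha u (hY u hu), ha'⟩
  have ps : ∀ (ι : Type) (s : Finset ι) (κ : ℕ) (ν : ℝ → ℝ) (G : ι → (Fin 4 → E) → E),
      (∀ i ∈ s, RN w δ Y κ ν (G i)) → RN w δ Y κ ν (fun u => ∑ i ∈ s, G i u) := by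
    intro ι s κ ν G
    classical
    induction s using Finset.induction_on with
    | empty =>
      intro _
      simp only [Finset.sum_empty]
      exact p5 κ ν
    | insert i s hi ih =>
      intro h
      simp only [Finset.sum_insert hi]
      exact p1 κ ν _ _ (h i (Finset.mem_insert_self i s))
        (ih fun j hj => h j (Finset.mem_insert_of_mem hj))
  refine ⟨p1, p2, ?_, p4, p5, p6⟩
  rintro κ κ' ν ν' F F' ⟨a, ha, ha'⟩ ⟨b, hb, hb'⟩
  have h1 : ∀ (e : Ex κ) (e' : Ex κ'), RN w δ Y (κ + κ') (fun σ => ν σ + ν' σ)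
      (fun u => a e * b e' * mon (e.1 + e'.1) u) := by
    intro e e'
    have hs : (e.1 + e'.1) 0 + (e.1 + e'.1) 1 + (e.1 + e'.1) 2 + (e.1 + e'.1) 3 = κ + κ' := by
      have h2 := ex_sum e
      have h3 := ex_sum e'
      simp only [Pi.add_apply]
      omega
    have h4 := p2 (κ + κ') _ (fun σ => ν σ + ν' σ - (((κ : ℝ) + κ') - (jj e.1 + jj e'.1)) * σ)
      (a e * b e') _ (fun σ h0 h1 => by
        rw [map_mul]
        have h2 := mul_le_mul (ha' e σ h0 h1) (hb' e' σ h0 h1) (w.nonneg _) (Real.exp_pos _).le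
        rw [← Real.exp_add] at h2
        refine h2.trans (le_of_eq ?_)
        congr 1
        ring) (p6 (κ + κ') (e.1 + e'.1) hs)
    refine p4 (κ + κ') _ _ _ (fun σ _ _ => le_of_eq ?_) h4
    rw [jj_add]
    push_cast
    ring
  have h2 := ps (Ex κ × Ex κ') Finset.univ (κ + κ') (fun σ => ν σ + ν' σ)
    (fun x u => a x.1 * b x.2 * mon (x.1.1 + x.2.1) u) (fun x _ => h1 x.1 x.2)
  obtain ⟨c, hc, hc'⟩ := h2
  refine ⟨c, fun u hu => ?_, hc'⟩
  rw [← hc u hu]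
  show F u * F' u = ∑ x : Ex κ × Ex κ', a x.1 * b x.2 * mon (x.1.1 + x.2.1) u
  rw [ha u hu, hb u hu, Finset.sum_mul_sum, Fintype.sum_prod_type]
  refine Finset.sum_congr rfl fun e _ => Finset.sum_congr rfl fun e' _ => ?_
  show _ = a e * b e' * mon (e.1 + e'.1) u
  rw [mon_add]
  ring

end Pool.Agent.KDS.H67
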